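import Pool.Agent.Run7.h100.UN.Iface

/-! # Piece DYN of the project UN (helper100): a self-map of a finite set -/

set_option autoImplicit false

namespace Run7.h590.UN

open Run7.h100.UN

variable {L : Type} [Field L] {v : AbsoluteValue L ℝ}

/-- congruence of integral elements -/
def E (v : AbsoluteValue L ℝ) (x y : L) : Prop := v x ≤ 1 ∧ v y ≤ 1 ∧ v (x - y) < 1

theorem E.rfl' {x : L} (h : v x ≤ 1) : E v x x := ⟨h, h, by simp⟩

theorem E.symm {x y : L} (h : E v x y) : E v y x := ⟨h.2.1, h.1, by rw [v.map_sub]; exact h.2.2⟩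

theorem E.trans (hv : IsNonarchimedean v) {x y z : L} (h : E v x y) (h' : E v y z) : E v x z := by
  refine ⟨h.1, h'.2.1, ?_⟩
  have h1 := hv (x - y) (y - z)
  rw [sub_add_sub_cancel] at h1
  exact h1.trans_lt (max_lt h.2.2 h'.2.2)

theorem E.add (hv : IsNonarchimedean v) {x y x' y' : L} (h : E v x y) (h' : E v x' y') :
    E v (x + x') (y + y') := by
  refine ⟨(hv x x').trans (max_le h.1 h'.1), (hv y y').trans (max_le h.2.1 h'.2.1), ?_⟩
  have h1 := hv (x - y) (x' - y')
  have e : x + x' - (y + y') = (x - y) + (x' - y') := by ring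
  rw [e]
  exact h1.trans_lt (max_lt h.2.2 h'.2.2)

theorem mul_le1 {x y : L} (h : v x ≤ 1) (h' : v y ≤ 1) : v (x * y) ≤ 1 := by
  rw [v.map_mul]
  exact mul_le_one₀ h (v.nonneg y) h'

theorem mul_lt1 {x y : L} (h : v x ≤ 1) (h' : v y < 1) : v (x * y) < 1 := by
  rw [v.map_mul]
  calc v x * v y ≤ 1 * v y := mul_le_mul_of_nonneg_right h (v.nonneg y)
    _ = v y := one_mul _
    _ < 1 := h'

theorem E.mul (hv : IsNonarchimedean v) {x y x' y' : L} (h : E v x y) (h' : E v x' y') :
    E v (x * x') (y * y') := by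
  refine ⟨mul_le1 h.1 h'.1, mul_le1 h.2.1 h'.2.1, ?_⟩
  have e : x * x' - y * y' = x * (x' - y') + y' * (x - y) := by ring
  rw [e]
  exact (hv _ _).trans_lt (max_lt (mul_lt1 h.1 h'.2.2) (mul_lt1 h'.2.1 h.2.2))

theorem E.pow (hv : IsNonarchimedean v) {x y : L} (h : E v x y) (n : ℕ) : E v (x ^ n) (y ^ n) := by
  induction n with
  | zero => simpa using E.rfl' (v := v) (x := (1 : L)) (by simp)
  | succ n ih => rw [pow_succ, pow_succ]; exact ih.mul hv h

theorem E.sum (hv : IsNonarchimedean v) {ι : Type} (s : Finset ι) (f g : ι → L)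
    (h : ∀ i ∈ s, E v (f i) (g i)) : E v (∑ i ∈ s, f i) (∑ i ∈ s, g i) := by
  classical
  induction s using Finset.induction_on with
  | empty => simpa using E.rfl' (v := v) (x := (0 : L)) (by simp)
  | insert i s hi ih =>
    rw [Finset.sum_insert hi, Finset.sum_insert hi]
    exact (h i (Finset.mem_insert_self i s)).add hv
      (ih fun j hj => h j (Finset.mem_insert_of_mem hj))

theorem E_lft (hv : IsNonarchimedean v) {a b : ℕ → L} (d : ℕ) (ha : ∀ i, v (a i) ≤ 1)
    (hb : ∀ i, v (b i) ≤ 1) {z z' : L × L} (h1 : E v z.1 z'.1) (h2 : E v z.2 z'.2) :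
    E v (lft a b d z).1 (lft a b d z').1 ∧ E v (lft a b d z).2 (lft a b d z').2 := by
  unfold lft
  constructor
  · exact E.sum hv (Finset.range (d + 1)) _ _ fun i _ => ((E.rfl' (ha i)).mul hv (h1.pow hv i)).mul hv (h2.pow hv (d - i))
  · exact E.sum hv (Finset.range (d + 1)) _ _ fun i _ => ((E.rfl' (hb i)).mul hv (h1.pow hv i)).mul hv (h2.pow hv (d - i))

theorem t_DYN : S_DYN := by
  intro L _ v hv p d hp hres a b ha hb hgood z hz
  set g : L × L → L × L := lft a b d with hg
  have hmax : ∀ n : ℕ, max (v (g^[n] z).1) (v (g^[n] z).2) = 1 := by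
    intro n
    induction n with
    | zero => exact hz
    | succ n ih => rw [Function.iterate_succ_apply']; exact hgood _ ih
  refine ⟨hmax, ?_⟩
  have hle : ∀ n : ℕ, v (g^[n] z).1 ≤ 1 ∧ v (g^[n] z).2 ≤ 1 := fun n =>
    ⟨(le_max_left _ _).trans (hmax n).le, (le_max_right _ _).trans (hmax n).le⟩
  have hch : ∀ n : ℕ, ∃ c : Fin p × Fin p, v ((g^[n] z).1 - ((c.1 : ℕ) : L)) < 1 ∧
      v ((g^[n] z).2 - ((c.2 : ℕ) : L)) < 1 := by
    intro n
    obtain ⟨j1, hj1, h1⟩ := hres _ (hle n).1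
    obtain ⟨j2, hj2, h2⟩ := hres _ (hle n).2
    exact ⟨(⟨j1, hj1⟩, ⟨j2, hj2⟩), h1, h2⟩
  choose c hc1 hc2 using hch
  -- equal classes are congruent
  have hE : ∀ i j : ℕ, c i = c j → E v (g^[i] z).1 (g^[j] z).1 ∧ E v (g^[i] z).2 (g^[j] z).2 := by
    intro i j hij
    refine ⟨⟨(hle i).1, (hle j).1, ?_⟩, ⟨(hle i).2, (hle j).2, ?_⟩⟩
    · have h1 := hc1 i
      have h2 := hc1 j
      rw [hij] at h1
      have h3 := hv ((g^[i] z).1 - (((c j).1 : ℕ) : L)) ((((c j).1 : ℕ) : L) - (g^[j] z).1)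
      rw [sub_add_sub_cancel] at h3
      rw [v.map_sub] at h2
      exact h3.trans_lt (max_lt h1 h2)
    · have h1 := hc2 i
      have h2 := hc2 j
      rw [hij] at h1
      have h3 := hv ((g^[i] z).2 - (((c j).2 : ℕ) : L)) ((((c j).2 : ℕ) : L) - (g^[j] z).2)
      rw [sub_add_sub_cancel] at h3
      rw [v.map_sub] at h2
      exact h3.trans_lt (max_lt h1 h2)
  obtain ⟨i, j, hij, hjM, hcij⟩ : ∃ i j : ℕ, i < j ∧ j ≤ p * p ∧ c i = c j := by
    obtain ⟨i, j, hne, heq⟩ := Fintype.exists_ne_map_eq_of_card_lt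
      (fun k : Fin (p * p + 1) => c k) (by simp)
    rcases lt_or_gt_of_ne hne with h | h
    · exact ⟨i, j, h, by have := j.2; omega, heq⟩
    · exact ⟨j, i, h, by have := i.2; omega, heq.symm⟩
  set t : ℕ := j - i with ht
  have ht0 : 0 < t := by omega
  have htM : t ≤ p * p := by omega
  -- one period
  have hper : ∀ k : ℕ, E v (g^[i + k] z).1 (g^[i + k + t] z).1 ∧
      E v (g^[i + k] z).2 (g^[i + k + t] z).2 := by
    intro k
    induction k with
    | zero =>
      have e : i + 0 + t = j := by omega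
      rw [e, add_zero]
      exact hE i j hcij
    | succ k ih =>
      have e1 : i + (k + 1) = (i + k) + 1 := by ring
      have e2 : i + (k + 1) + t = (i + k + t) + 1 := by ring
      rw [e2, e1, Function.iterate_succ_apply', Function.iterate_succ_apply']
      exact E_lft hv d ha hb ih.1 ih.2
  have hmul : ∀ (s n : ℕ), i ≤ n → E v (g^[n] z).1 (g^[n + s * t] z).1 ∧
      E v (g^[n] z).2 (g^[n + s * t] z).2 := by
    intro s n hn
    induction s with
    | zero =>
      rw [zero_mul, add_zero]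
      exact ⟨E.rfl' (hle n).1, E.rfl' (hle n).2⟩
    | succ s ih =>
      obtain ⟨k, hk⟩ : ∃ k, n + s * t = i + k := ⟨n + s * t - i, by omega⟩
      have h := hper k
      rw [← hk] at h
      have e : n + (s + 1) * t = n + s * t + t := by ring
      rw [e]
      exact ⟨ih.1.trans hv h.1, ih.2.trans hv h.2⟩
  have hdvd : t ∣ (p * p).factorial := Nat.dvd_factorial ht0 htM
  obtain ⟨s, hs⟩ := hdvd
  have hiM : i ≤ (p * p).factorial := by
    have := Nat.self_le_factorial (p * p)
    omega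
  have h := hmul s (p * p).factorial hiM
  have e : (p * p).factorial + s * t = 2 * (p * p).factorial := by
    rw [mul_comm s t, ← hs]; ring
  rw [e] at h
  obtain ⟨h1, h2⟩ := h
  set U := g^[2 * (p * p).factorial] z with hU
  set V := g^[(p * p).factorial] z with hV
  have e3 : U.1 * V.2 - U.2 * V.1 = V.2 * (U.1 - V.1) + V.1 * (V.2 - U.2) := by ring
  rw [e3]
  refine (hv _ _).trans_lt (max_lt (mul_lt1 h2.1 ?_) (mul_lt1 h1.1 h2.2.2))
  rw [v.map_sub]
  exact h1.2.2

end Run7.h590.UN
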